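import Pool.Agent.helper15.DH.Assembly

/-!
# MP_4467b5_nt: the density hypothesis for all `σ > 3/4`

`NZ σ T` is the number of zeros `ρ` of the Riemann zeta function with `Re ρ ≥ σ` and
`0 < Im ρ ≤ T`, counted with multiplicity (`N(σ, T)` of the problem).

The theorem: for every `σ₀ > 3/4` and every `ε > 0` there is `C` such that
`N(σ, T) ≤ C T^(2 (1 - σ) + ε)` for all `T ≥ 1` and all `σ₀ ≤ σ ≤ 1`.

Method: zero detection; a new estimate for large values of Dirichlet polynomials (a one-sided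
Halász–Montgomery inequality, summed over all ratios `l/l'` of integers of size `(T/N)^(1/2)`, in
which the dual sum is controlled by the same quantity and absorbed).
-/

set_option autoImplicit false

open Complex

namespace Pool.Agent.helper5.Reserve.DensityThreeQuarters

/-- The set of the zeros `ρ` of the zeta function with `Re ρ ≥ σ` and `0 < Im ρ ≤ T`. -/
def zeroSet (σ T : ℝ) : Set ℂ := {ρ : ℂ | riemannZeta ρ = 0 ∧ σ ≤ ρ.re ∧ 0 < ρ.im ∧ ρ.im ≤ T}

/-- The number of zeros `ρ` of the zeta function with `Re ρ ≥ σ` and `0 < Im ρ ≤ T`, counted with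
multiplicity (the order of the zeta function at `ρ`). -/
noncomputable def NZ (σ T : ℝ) : ℕ := ∑ᶠ ρ ∈ zeroSet σ T, analyticOrderNatAt riemannZeta ρ

theorem zeroSet_finite {σ T : ℝ} (hσ : 0 ≤ σ) : (zeroSet σ T).Finite := by
  have hb : Bornology.IsBounded ((Set.Icc (0 : ℝ) 1) ×ℂ (Set.Icc 0 T)) :=
    (Metric.isBounded_Icc _ _).reProdIm (Metric.isBounded_Icc _ _)
  refine (Pool.Agent.helper6.LD.zeros_finite hb).subset fun ρ hρ => ?_
  obtain ⟨h1, h2, h3, h4⟩ := hρ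
  have h5 : ρ.re < 1 := by
    by_contra hc
    exact riemannZeta_ne_zero_of_one_le_re (not_lt.mp hc) h1
  refine ⟨?_, h1⟩
  rw [Complex.mem_reProdIm]
  exact ⟨⟨by linarith, h5.le⟩, ⟨h3.le, h4⟩⟩

/-- The density hypothesis holds for all `σ > 3/4`. -/
theorem result (σ₀ ε : ℝ) (hσ₀ : 3 / 4 < σ₀) (hε : 0 < ε) : ∃ C : ℝ, 0 < C ∧ ∀ T σ : ℝ, 1 ≤ T →
    σ₀ ≤ σ → σ ≤ 1 → (zeroSet σ T).Finite ∧ (NZ σ T : ℝ) ≤ C * T ^ (2 * (1 - σ) + ε) := by
  obtain ⟨C, hC, h⟩ := Pool.Agent.DH.fin σ₀ ε hσ₀ hε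
  refine ⟨C, hC, fun T σ hT h1 h2 => ?_⟩
  have hf : (zeroSet σ T).Finite := zeroSet_finite (by linarith)
  refine ⟨hf, ?_⟩
  have h3 := h T σ hT h1 h2 hf.toFinset (fun ρ hρ => (Set.Finite.mem_toFinset hf).mp hρ)
  have h4 : NZ σ T = ∑ ρ ∈ hf.toFinset, analyticOrderNatAt riemannZeta ρ :=
    finsum_mem_eq_finite_toFinset_sum _ hf
  rw [h4, Nat.cast_sum]
  exact h3

end Pool.Agent.helper5.Reserve.DensityThreeQuarters
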