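import Pool.Agent.helper56.LVS.Final

/-!
# A large values theorem for short Dirichlet polynomials

Let `D(t) = ∑ a n * n ^ (-it)`, `N < n ≤ 2 N`, `N ^ 2 ≤ T`, `|a n| ≤ 1`, `G = ∑ |a n| ^ 2`, and let `W` be a
set of points with distances at least `1` in an interval of length `T` at which `|D(t)| ≥ V`. Then
`|W| ≤ C T ^ ε (T ^ (3/4) G ^ (5/2) N ^ (3/2) / V ^ 6 + T G ^ (5/2) N ^ (3/2) / V ^ 7 + T ^ (1/2) G ^ 2 N / V ^ 4)`,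
in particular `|W| ≤ C T ^ ε (T ^ (3/4) N ^ 4 / V ^ 6 + T N ^ 4 / V ^ 7 + T ^ (1/2) N ^ 3 / V ^ 4)`.

Sketch. We may suppose that `V ≤ |D| ≤ 2 V` on `W`, `W ⊆ [T, 2T]` with gaps `T ^ δ`. Let `L = T ^ (1/2) / N`,
`X = N ^ 2 L`, `B_X(u) = ∑ k ^ (-iu)` a smooth sum over `k` of size `X`. The quantity `∑_W |D| ^ 4` is a
sum over `n₁, n₂` of size `N` of `conj(a a) ∑_t D(t) ^ 2 (n₁ n₂) ^ (it)`; insert `l` of size `L`, use the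
Cauchy inequality and the divisor bound for `k = n₁ n₂ l`, and then once more for `k = n l` of size `N L`.
This gives `L (∑_W |D| ^ 4) ^ 3 ≤ T ^ ε G ^ 5 ∑_{τ ∈ W} ∑_{k ~ N L} |∑_{t ≠ τ} B_X(τ - t) D(t) k ^ (-it)| ^ 2`,
unless `∑_W |D| ^ 4 ≤ T ^ ε G ^ 2 X`. Multiply by `V ^ 2 ≤ |D(τ)| ^ 2`, use Poisson summation for `B_X` and
replace the sum over `τ ∈ W` of the nonnegative terms by the integral with the weight `|D(τ)| ^ 2`. The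
integral is explicit, with the frequencies `m₁ e^a - m₂ e^b + m₃`, and is concentrated at `a = b` near the
logarithms of reduced fractions `p/q`; there `∑_{p/q} |∑_t D(t) (p/q) ^ (it) e ^ (iθt)| ^ 2` is bounded both by the
large sieve and, using that `D` is a Dirichlet polynomial, by duality.
-/

set_option autoImplicit false

namespace Pool.Agent.helper5.Reserve.LargeValuesShort

theorem result (ε : ℝ) (hε : 0 < ε) : ∃ C : ℝ, 0 < C ∧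
    ∀ (T T₀ : ℝ) (N : ℕ) (a : ℕ → ℂ) (V G : ℝ) (W : Finset ℝ), 1 ≤ T → 1 ≤ N → (N : ℝ) ^ 2 ≤ T →
    0 < V → (∀ n ∈ Finset.Ioc N (2 * N), ‖a n‖ ≤ 1) → G = ∑ n ∈ Finset.Ioc N (2 * N), ‖a n‖ ^ 2 →
    (∀ t ∈ W, T₀ ≤ t ∧ t ≤ T₀ + T) → (∀ t ∈ W, ∀ s ∈ W, t ≠ s → 1 ≤ |t - s|) →
    (∀ t ∈ W, V ≤ ‖∑ n ∈ Finset.Ioc N (2 * N), a n * (n : ℂ) ^ (-((t : ℂ) * Complex.I))‖) →
    (W.card : ℝ) ≤ C * T ^ ε * (T ^ (3 / 4 : ℝ) * G ^ (5 / 2 : ℝ) * (N : ℝ) ^ (3 / 2 : ℝ) / V ^ 6 +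
      T * G ^ (5 / 2 : ℝ) * (N : ℝ) ^ (3 / 2 : ℝ) / V ^ 7 + T ^ (1 / 2 : ℝ) * G ^ 2 * N / V ^ 4) :=
  Pool.Agent.LVS.LVS_final ε hε

end Pool.Agent.helper5.Reserve.LargeValuesShort
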